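import Mathlib
import Pool.Agent.H.MP_97e2c3_nt.A

namespace Pool.Agent.Results.MP_97e2c3_nt.Full

theorem result : ∀ n r : ℕ, 1 < n → (4 * n : ℤ) ∣
    ∑ k ∈ Finset.range n, (-1) ^ k * (3 * k + 2) *
      ∑ j ∈ Finset.range (k + 1), (k.choose j : ℤ) ^ (2 * r + 1) := by
  intro n r hn
  obtain ⟨m, rfl⟩ : ∃ m, n = m + 1 + 1 := ⟨n - 2, by omega⟩
  obtain ⟨c, hc⟩ := Pool.Agent.H.MP_97e2c3_nt.odd_case r (m + 1)
  rw [hc]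
  exact ⟨c + (-1) ^ (m + 1) * 2 ^ m, by push_cast; ring⟩

end Pool.Agent.Results.MP_97e2c3_nt.Full
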